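import Pool.Agent.K3h5.IB.Stm

/-! # IB bricks NICE and CROSS -/

set_option autoImplicit false

namespace Pool.Agent.K3h7.IB

open Pool.Agent.K3h5.IB

variable {d : ℕ}

theorem mem_nbrs (Z : Set (V d × D d)) (v : V d) (e : D d) : e ∈ nbrs Z v ↔ (v, e) ∈ Z := by
  classical
  unfold nbrs
  simp

theorem t_NICE : S_CUTG → S_NICE := by
  intro hC d δ x hG Z hZ
  obtain ⟨-, -, -, hmono, hcc, -, -⟩ := hC d δ x hG
  have hlt : StrictMono fun m => ht δ (path0 x (ct δ x m)) := by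
    intro m m' hm
    exact (hcc m).2 _ (hmono hm)
  refine ⟨fun i => ⟨hZ.sym, ?_, ?_, ?_⟩, ?_⟩
  · rintro v ⟨e0, he0⟩ m
    refine ⟨x (idx x v) (some (i, m, nbrs Z v)), ?_, rfl⟩
    rw [← mem_nbrs]
    exact hG.mem _ _ _ _ ⟨e0, (mem_nbrs Z v e0).2 he0⟩
  · intro v e he M
    obtain ⟨m, hm, h⟩ := hG.fair (idx x v) i (nbrs Z v) e ((mem_nbrs Z v e).2 he) M
    refine ⟨m, hm, ?_⟩
    unfold stk
    rw [h]
  · have hne : path0 x (ct δ x 0) ≠ path0 x (ct δ x 1) := by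
      intro h
      have h1 := hlt (show 0 < 1 from Nat.one_pos)
      simp only [h] at h1
      exact lt_irrefl _ h1
    have key : ∀ w : V d, Conn Z 0 w → w ≠ 0 → ∃ e, ((0 : V d), e) ∈ Z := by
      intro w hw hw0
      rcases Relation.ReflTransGen.cases_head hw with h | ⟨c, ⟨e, he, _⟩, _⟩
      · exact absurd h.symm hw0
      · exact ⟨e, he⟩
    by_cases h0 : path0 x (ct δ x 0) = 0
    · refine key _ (hZ.conn _ (hcc 1)) ?_
      intro h1
      exact hne (h0.trans h1.symm)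
    · exact key _ (hZ.conn _ (hcc 0)) h0
  · refine Set.infinite_of_injective_forall_mem (f := fun m => path0 x (ct δ x m)) ?_ ?_
    · intro m m' h
      have h1 : ht δ (path0 x (ct δ x m)) = ht δ (path0 x (ct δ x m')) := by
        simp only at h
        rw [h]
      exact hlt.injective h1
    · intro m
      exact hZ.conn _ (hcc m)

theorem path0_zero (x : ℕ → S d) : path0 x 0 = 0 := by
  simp [path0]

theorem path0_succ (x : ℕ → S d) (n : ℕ) : path0 x (n + 1) = path0 x n + vec (x n none) := by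
  simp [path0, Finset.sum_range_succ]

theorem t_CROSS : S_ROUTE → S_FAIR → S_CUTG → S_NICE → S_CROSS := by
  intro hR hF hC hN d δ x hG Z hZ i y hy
  obtain ⟨h0, hD⟩ := (hR d (stk x i Z) y).2 hy
  obtain ⟨hfair, hinf⟩ := hN d δ x hG Z hZ
  obtain ⟨hstep, -, hesc⟩ := hF d Z (stk x i Z) (hfair i) y h0 hD
  obtain ⟨-, -, hcut, -, -, -, -⟩ := hC d δ x hG
  refine ⟨h0, hD, hstep, ?_, ?_⟩
  · intro n
    obtain ⟨e, he, _⟩ := hstep n
    obtain ⟨k, ⟨hk, _⟩ | ⟨hk, _⟩⟩ := hZ.sub he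
    · exact ⟨k, hk⟩
    · exact ⟨k + 1, hk⟩
  · intro c hc
    obtain ⟨hcr, hleft, -⟩ := hcut c hc
    have ha : ∀ N, ∃ n ≥ N, ht δ (path0 x c) < ht δ (y n) := by
      intro N
      obtain ⟨n, hn, hyn⟩ := hesc hinf {v | ∃ k ≤ c, path0 x k = v}
        ((Set.finite_Iic c).image (path0 x) |>.subset (by
          rintro v ⟨k, hk, rfl⟩
          exact ⟨k, hk, rfl⟩)) N
      refine ⟨n, hn, ?_⟩
      by_contra hle
      obtain ⟨e, he, _⟩ := hstep n
      exact hyn (hleft (y n) e (hZ.sub he) (not_lt.1 hle))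
    have hb : ∀ n, ht δ (y n) ≤ ht δ (path0 x c) → ht δ (path0 x c) < ht δ (y (n + 1)) →
        y n = path0 x c ∧ y (n + 1) = path0 x (c + 1) := by
      intro n h1 h2
      obtain ⟨e, he, h3⟩ := hstep n
      rw [h3] at h2 ⊢
      exact hcr (y n) e (hZ.sub he) h1 h2
    have hex : ∃ n, ht δ (path0 x c) < ht δ (y n) := by
      obtain ⟨n, _, hn⟩ := ha 0
      exact ⟨n, hn⟩
    classical
    obtain ⟨N, hN1, hN2⟩ : ∃ N, ht δ (path0 x c) < ht δ (y N) ∧
        ∀ k < N, ht δ (y k) ≤ ht δ (path0 x c) :=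
      ⟨Nat.find hex, Nat.find_spec hex, fun k hk => not_lt.1 (Nat.find_min hex hk)⟩
    obtain ⟨n, rfl⟩ : ∃ n, N = n + 1 := by
      rcases N with _ | n
      · exfalso
        rw [h0, ← path0_zero x] at hN1
        exact absurd (hc.1 0 (Nat.zero_le c)) (not_le.2 hN1)
      · exact ⟨n, rfl⟩
    have hlast := hb n (hN2 n (Nat.lt_succ_self n)) hN1
    refine ⟨ha, hb, ⟨n, hlast.1, fun k hk => hN2 k (Nat.lt_succ_of_le hk)⟩, n, Or.inl ⟨hlast.1, ?_⟩⟩
    rw [hlast.2, path0_succ]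

end Pool.Agent.K3h7.IB
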